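import Pool.Agent.Helper64.CT.Stmts

set_option autoImplicit false

namespace Pool.Agent.Helper64.CT

theorem rzz_trans {P Q R : Prop} {a b c : Bool} (h1 : (P ↔ Q) ↔ a = b)
    (h2 : (Q ↔ R) ↔ b = c) : (P ↔ R) ↔ a = c := by
  by_cases hP : P <;> by_cases hQ : Q <;> by_cases hR : R <;>
    cases a <;> cases b <;> cases c <;> simp_all

theorem rzz_ex1 {P P' Q Q' R R' : Prop} (h : Ex1 P Q R) (h' : Ex1 P' Q' R') (hP : P ↔ P')
    (hR : R ↔ R') : Q ↔ Q' := by
  unfold Ex1 at h h'
  tauto

theorem st_RZZ (hSD1 : ST_SD1) (hGEX : ST_GEX) : ST_RZZ := by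
  intro V G s T z l r ε hTF hS hz hT hM hR
  by_cases hex : ∃ x0 ∈ T, x0 ∈ Far G z
  swap
  · exact ⟨true, fun x hx hxz => absurd ⟨x, hx, hxz⟩ hex⟩
  obtain ⟨x0, hx0, hx0z⟩ := hex
  have hzT : z ∈ insert z T := Set.mem_insert z T
  have hsub : ∀ {w}, w ∈ T → w ∈ insert z T := fun h => Set.mem_insert_of_mem z h
  -- the relation between adjacent vertices
  have key : ∀ w, w ∈ T →
      (w ∈ Far G z → ((Ins l r z x0 ↔ Ins l r z w) ↔ s z x0 = s z w)) ∧
      (G.Adj z w → ∃ u ∈ T, u ∈ Far G z ∧ G.Adj w u ∧
        ((Ins l r z x0 ↔ Ins l r z u) ↔ s z x0 = s z u)) := by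
    intro w hw
    have hreach : (G.induce T).Reachable ⟨x0, hx0⟩ ⟨w, hw⟩ := hT _ _
    rw [SimpleGraph.reachable_iff_reflTransGen] at hreach
    have gen : ∀ w : T, Relation.ReflTransGen (G.induce T).Adj ⟨x0, hx0⟩ w →
        (w.1 ∈ Far G z → ((Ins l r z x0 ↔ Ins l r z w.1) ↔ s z x0 = s z w.1)) ∧
        (G.Adj z w.1 → ∃ u ∈ T, u ∈ Far G z ∧ G.Adj w.1 u ∧
          ((Ins l r z x0 ↔ Ins l r z u) ↔ s z x0 = s z u)) := by
      intro w hw
      induction hw with
      | refl =>
        refine ⟨fun _ => by simp, fun h => absurd h hx0z.2⟩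
      | @tail w w' _ hadj ih =>
        obtain ⟨w, hwT⟩ := w
        obtain ⟨w', hwT'⟩ := w'
        have hadj' : G.Adj w w' := by simpa using hadj
        dsimp only at ih ⊢
        by_cases hzw : G.Adj z w
        · obtain ⟨u, huT, huz, hwu, hEu⟩ := ih.2 hzw
          refine ⟨fun hw' => ?_, fun hzw' => ?_⟩
          · by_cases huw : u = w'
            · subst huw; exact hEu
            · have hzu : z ≠ u := fun e => huz.1 e.symm
              have hzw' : z ≠ w' := fun e => hw'.1 e.symm
              have hnuw' : ¬ G.Adj u w' := hTF u w w' hwu.symm hadj'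
              have e1 := hS.2 w z u w' hzw.symm hwu hadj' hzu hzw' huw
              have e2 := hGEX V G (insert z T) l r hM w (hsub hwT) z hzT u (hsub huT) w'
                (hsub hwT') hzw.symm hwu hadj' hzu hzw' huw huz.2 hw'.2 hnuw'
              have a1 := hR u huT z hzT (Far.symm huz)
              have a2 := hR u huT w' (hsub hwT') ⟨fun e => huw e.symm, hnuw'⟩
              have b1 := hR w' hwT' z hzT (Far.symm hw')
              have b2 := hR w' hwT' u (hsub huT) ⟨huw, fun e => hnuw' e.symm⟩
              have c1 : (Ins l r u z ↔ Ins l r u w') ↔ s u z = s u w' := by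
                rw [a1, a2]
                cases s u z <;> cases s u w' <;> cases ε u <;> simp
              have c2 : (Ins l r w' z ↔ Ins l r w' u) ↔ s w' z = s w' u := by
                rw [b1, b2]
                cases s w' z <;> cases s w' u <;> cases ε w' <;> simp
              have c3 := rzz_ex1 e2 e1 (not_congr c2) (not_congr c1)
              exact rzz_trans hEu (not_iff_not.mp c3)
          · exact absurd hzw' (hTF z w w' hzw hadj')
        · have hwz : w ∈ Far G z := ⟨fun e => hz (e ▸ hwT), hzw⟩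
          have hEw := ih.1 hwz
          refine ⟨fun hw' => ?_, fun _ => ⟨w, hwT, hwz, hadj'.symm, hEw⟩⟩
          have d1 := hSD1 V G (insert z T) l r hM z hzT w (hsub hwT) w' (hsub hwT') hwz hw' hadj'
          have d2 := hS.1 z w w' hwz hw' hadj'
          rw [← d1, ← d2]
          exact hEw
    exact gen ⟨w, hw⟩ hreach
  by_cases hI : Ins l r z x0
  · refine ⟨s z x0, fun x hx hxz => ?_⟩
    have := (key x hx).1 hxz
    rw [eq_comm (a := s z x)]
    simpa [hI] using this
  · refine ⟨!(s z x0), fun x hx hxz => ?_⟩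
    have := (key x hx).1 hxz
    by_cases hIx : Ins l r z x
    · simp only [hI, hIx, true_iff] at this ⊢
      simp only [false_iff] at this
      revert this
      cases s z x <;> cases s z x0 <;> simp
    · simp only [hI, hIx, false_iff] at this ⊢
      simp only [true_iff] at this
      revert this
      cases s z x <;> cases s z x0 <;> simp

end Pool.Agent.Helper64.CT
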